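import Pool.Agent.PFB.StmtsB

/-!
# PFB, row B_ORB (orthonormal bases), by helper76
-/

set_option autoImplicit false

open Matrix Filter Topology

namespace Pool.Agent.PFB.H76

open Pool.Agent.PFS Pool.Agent.PFB

theorem orb : OrbStmt := by
  intro n d U hU
  obtain ⟨e, he⟩ : ∃ e : EuclideanSpace ℝ (Fin n) ≃ₗ[ℝ] V n,
      ∀ x y : EuclideanSpace ℝ (Fin n), inner ℝ x y = e x ⬝ᵥ e y := by
    refine ⟨WithLp.linearEquiv 2 ℝ (Fin n → ℝ), ?_⟩
    intro x y
    rw [EuclideanSpace.inner_eq_star_dotProduct]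
    rw [dotProduct_comm]
    rfl
  obtain ⟨U', hU'⟩ : ∃ U' : Submodule ℝ (EuclideanSpace ℝ (Fin n)),
      U' = U.comap (e : EuclideanSpace ℝ (Fin n) →ₗ[ℝ] V n) := ⟨_, rfl⟩
  have hfr : Module.finrank ℝ U' = d := by
    rw [← hU, hU']
    exact (Submodule.comap_equiv_eq_map_symm e U) ▸ LinearEquiv.finrank_map_eq e.symm U
  obtain ⟨b⟩ : Nonempty (OrthonormalBasis (Fin d) ℝ U') := by
    refine ⟨(stdOrthonormalBasis ℝ U').reindex (finCongr hfr)⟩
  obtain ⟨v, hv⟩ : ∃ v : Fin d → V n, ∀ i, v i = e (b i : EuclideanSpace ℝ (Fin n)) :=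
    ⟨_, fun _ => rfl⟩
  have hmem : ∀ i, v i ∈ U := by
    intro i
    have h0 : ∀ x ∈ U', e x ∈ U := by
      intro x hx
      rw [hU', Submodule.mem_comap] at hx
      exact hx
    rw [hv]
    exact h0 _ (b i).2
  have hdot : ∀ i j, v i ⬝ᵥ v j = if i = j then 1 else 0 := by
    intro i j
    rw [hv, hv, ← he]
    have h1 := orthonormal_iff_ite.mp b.orthonormal i j
    rw [← h1]
    rfl
  have hli : LinearIndependent ℝ v := by
    rw [Fintype.linearIndependent_iff]
    intro g hg j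
    have h1 : (∑ i, g i • v i) ⬝ᵥ v j = g j := by
      rw [sum_dotProduct]
      simp only [smul_dotProduct, hdot, smul_eq_mul, mul_ite, mul_one, mul_zero]
      simp
    rw [hg, zero_dotProduct] at h1
    exact h1.symm
  refine ⟨v, hmem, hdot, ?_, ?_⟩
  · intro i k
    have h1 := hdot i i
    rw [if_pos rfl] at h1
    have h2 : v i k * v i k ≤ v i ⬝ᵥ v i := by
      unfold dotProduct
      exact Finset.single_le_sum (f := fun k => v i k * v i k)
        (fun k _ => mul_self_nonneg _) (Finset.mem_univ k)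
    rw [h1] at h2
    rw [abs_le]
    constructor <;> nlinarith
  · symm
    refine Submodule.eq_of_le_of_finrank_le ?_ ?_
    · rw [Submodule.span_le]
      rintro _ ⟨i, rfl⟩
      exact hmem i
    · rw [hU, finrank_span_eq_card hli, Fintype.card_fin]

end Pool.Agent.PFB.H76
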