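import Pool.Agent.PFB.StmtsB

/-!
# PFB, row B_EXT (vertices of top simplices are extreme), by helper76
-/

set_option autoImplicit false

open Matrix Filter Topology

namespace Pool.Agent.PFB.H76

open Pool.Agent.PFS Pool.Agent.PFB

theorem sum_omit {n q : ℕ} (w : Fin (q + 1) → V n) (i : Fin (q + 1)) (j : Fin q) :
    ∑ m, (if m = i.succAbove j then (0 : ℝ) else 1) • w m =
      w i + ∑ l ∈ Finset.univ.erase j, w (i.succAbove l) := by
  rw [Fin.sum_univ_succAbove _ i]
  have h1 : (if i = i.succAbove j then (0 : ℝ) else 1) = 1 :=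
    if_neg (Fin.succAbove_ne i j).symm
  rw [h1, one_smul]
  congr 1
  rw [← Finset.add_sum_erase Finset.univ _ (Finset.mem_univ j)]
  rw [if_pos rfl, zero_smul, zero_add]
  refine Finset.sum_congr rfl fun l hl => ?_
  have h2 : l ≠ j := Finset.ne_of_mem_erase hl
  have h3 : i.succAbove l ≠ i.succAbove j := fun h => h2 (Fin.succAbove_right_injective h)
  rw [if_neg h3, one_smul]

theorem ext (pln : PlnStmt) (zex : ZexStmt) (flm : FlmStmt) : ExtStmt := by
  intro n C Γ h K hK hmax w hw i z hz β hβ
  obtain ⟨q, rfl⟩ : ∃ q, K = q + 1 := ⟨K - 1, by omega⟩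
  have hC : PCone C := h.toPCone
  have hq : 0 < q := by omega
  have hwcl : w i ∈ closure C := hw.1.cl i
  have hS : w i + ∑ j, w (i.succAbove j) ∈ C := by
    have h1 := hw.1.sum_mem
    rw [Fin.sum_univ_succAbove _ i] at h1
    exact h1
  have homit : ∀ j, w i + ∑ l ∈ Finset.univ.erase j, w (i.succAbove l) ∉ C := by
    intro j
    rw [← sum_omit w i j]
    refine hw.1.bd _ ?_ ⟨i.succAbove j, if_pos rfl⟩
    intro m
    by_cases hm : m = i.succAbove j
    · rw [if_pos hm]
    · rw [if_neg hm]; exact zero_le_one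
  have hw0 : w i ≠ 0 := by
    intro h0
    have h1 : ∑ m, (if m = i then (0 : ℝ) else 1) • w m ∉ C := by
      refine hw.1.bd _ ?_ ⟨i, if_pos rfl⟩
      intro m
      by_cases hm : m = i
      · rw [if_pos hm]
      · rw [if_neg hm]; exact zero_le_one
    apply h1
    have h2 : ∑ m, (if m = i then (0 : ℝ) else 1) • w m = ∑ m, w m := by
      refine Finset.sum_congr rfl fun m _ => ?_
      by_cases hm : m = i
      · rw [if_pos hm, hm, h0, smul_zero]
      · rw [if_neg hm, one_smul]
    rw [h2]
    exact hw.1.sum_mem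
  by_cases hdep : ∃ c : ℝ, z = c • w i
  · obtain ⟨c, hc⟩ := hdep
    refine ⟨c, ?_, hc⟩
    by_contra hneg
    push Not at hneg
    have h1 : -w i ∈ closure C := by
      have h2 := hC.cl_smul_pos hz (t := (-c)⁻¹) (inv_pos.mpr (by linarith))
      rw [hc, smul_smul] at h2
      have h3 : (-c)⁻¹ * c = -1 := by
        rw [inv_neg, neg_mul, inv_mul_cancel₀ hneg.ne]
      rw [h3, neg_one_smul] at h2
      exact h2
    exact hw0 (hC.salient _ hwcl h1)
  · exfalso
    have hli : LinearIndependent ℝ ![w i, z] := by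
      rw [LinearIndependent.pair_iff]
      intro s t hst
      have ht : t = 0 := by
        by_contra ht
        apply hdep
        refine ⟨-s / t, ?_⟩
        have h1 : t • z = -(s • w i) := by
          rw [eq_neg_iff_add_eq_zero, add_comm]
          exact hst
        have h2 : t⁻¹ • (t • z) = t⁻¹ • (-(s • w i)) := by rw [h1]
        rw [smul_smul, inv_mul_cancel₀ ht, one_smul, ← neg_smul, smul_smul] at h2
        rw [h2]
        congr 1
        rw [inv_mul_eq_div]
      rw [ht, zero_smul, add_zero] at hst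
      refine ⟨?_, ht⟩
      rcases smul_eq_zero.mp hst with h1 | h1
      · exact h1
      · exact absurd h1 hw0
    obtain ⟨e1, e2, a, b, a', b', he1, he2, hue1, hve2, hlie, ha, hb, ha', hb', hu, hv, hn1, hn2⟩ :=
      pln n C hC (w i) hwcl z hz hli
    have he10 : e1 ≠ 0 := by
      have := hlie.ne_zero 0
      simpa using this
    have he20 : e2 ≠ 0 := by
      have := hlie.ne_zero 1
      simpa using this
    have hbpos : 0 < b := by
      rcases hb.eq_or_lt with h0 | h0
      · exfalso
        obtain ⟨t, ht⟩ : ∃ t : ℝ, t = |β * a - a'| + 1 := ⟨_, rfl⟩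
        have htp : 0 < t := by rw [ht]; positivity
        have h1 : t • e1 - b' • e2 ∈ closure C := by
          have h2 : t • e1 - b' • e2 = (β • w i - z) + (t - (β * a - a')) • e1 := by
            rw [hu, hv, ← h0]
            module
          rw [h2]
          refine hC.cl_add hβ (hC.cl_smul he1 ?_)
          rw [ht]
          have := le_abs_self (β * a - a')
          linarith
        apply hn1 (b' / t) (div_pos hb' htp)
        have h3 : e1 - (b' / t) • e2 = t⁻¹ • (t • e1 - b' • e2) := by
          rw [smul_sub, smul_smul, smul_smul, inv_mul_cancel₀ htp.ne', one_smul, inv_mul_eq_div]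
        rw [h3]
        exact hC.cl_smul_pos h1 (inv_pos.mpr htp)
      · exact h0
    have hl1 : a • e1 ∈ LamC C Γ := by
      refine flm n C Γ h (w i) (hw.2 i) (a • e1) (hC.cl_smul_pos he1 ha)
        (smul_ne_zero ha.ne' he10) ?_
      have h1 : w i - a • e1 = b • e2 := by rw [hu]; module
      rw [h1]
      exact hC.cl_smul_pos he2 hbpos
    have hl2 : b • e2 ∈ LamC C Γ := by
      refine flm n C Γ h (w i) (hw.2 i) (b • e2) (hC.cl_smul_pos he2 hbpos)
        (smul_ne_zero hbpos.ne' he20) ?_
      have h1 : w i - b • e2 = a • e1 := by rw [hu]; module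
      rw [h1]
      exact hC.cl_smul_pos he1 ha
    have hm1 : ∀ η : ℝ, 0 < η → a • e1 - η • (b • e2) ∉ closure C := by
      intro η hη hcl
      apply hn1 (η * b / a) (by positivity)
      have h1 := hC.cl_smul_pos hcl (t := a⁻¹) (inv_pos.mpr ha)
      have h2 : e1 - (η * b / a) • e2 = a⁻¹ • (a • e1 - η • (b • e2)) := by
        rw [smul_sub, smul_smul, smul_smul, smul_smul, inv_mul_cancel₀ ha.ne', one_smul,
          inv_mul_eq_div, div_mul_eq_mul_div]
      rw [h2]
      exact h1
    have hm2 : ∀ η : ℝ, 0 < η → b • e2 - η • (a • e1) ∉ closure C := by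
      intro η hη hcl
      apply hn2 (η * a / b) (by positivity)
      have h1 := hC.cl_smul_pos hcl (t := b⁻¹) (inv_pos.mpr hbpos)
      have h2 : e2 - (η * a / b) • e1 = b⁻¹ • (b • e2 - η • (a • e1)) := by
        rw [smul_sub, smul_smul, smul_smul, smul_smul, inv_mul_cancel₀ hbpos.ne', one_smul,
          inv_mul_eq_div, div_mul_eq_mul_div]
      rw [h2]
      exact h1
    obtain ⟨w', hw'⟩ := zex n C Γ h q (a • e1) (b • e2) (fun j => w (i.succAbove j)) hl1 hl2 hm1
      hm2 hq (fun j => h.hul.lamHull _ (hw.2 _)) (by rw [← hu]; exact hS)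
      (fun j => by rw [← hu]; exact homit j)
    have := hmax (2 + q) w' hw'
    omega

end Pool.Agent.PFB.H76
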