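import Pool.Agent.Helper76_PFB.CCJ1

/-!
# PFB squad, row CCJ: the second shape is impossible
-/

set_option autoImplicit false

open Matrix Filter Topology

namespace Pool.Agent.PFB.H76

open Pool.Agent.PFS

variable {n : ℕ} {C : Set (V n)} {Γ : Subgroup (GL (Fin n) ℝ)}

/-- the sum of the vertices in one fibre is not in `C`, if there are two other vertices -/
theorem fiber_not_mem {K : ℕ} {L : Fin K → Submodule ℝ (V n)} {w : Fin K → V n}
    {β : Fin K → Fin K} (hb : Box C Γ L w β) {a : Fin K} (ha : ∃ m, β m ≠ a) :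
    (∑ m ∈ Finset.univ.filter (fun m => β m = a), w m) ∉ C := by
  classical
  obtain ⟨m₀, hm₀⟩ := ha
  have h1 := hb.pes.1.bd (fun m => if β m = a then (1 : ℝ) else 0)
    (fun m => by by_cases hm : β m = a <;> simp [hm]) ⟨m₀, by simp [hm₀]⟩
  intro h2
  apply h1
  have h3 : (∑ m, (if β m = a then (1 : ℝ) else 0) • w m)
      = ∑ m ∈ Finset.univ.filter (fun m => β m = a), w m := by
    rw [Finset.sum_filter]
    refine Finset.sum_congr rfl fun m _ => ?_
    by_cases hm : β m = a
    · rw [if_pos hm, if_pos hm, one_smul]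
    · rw [if_neg hm, if_neg hm, zero_smul]
  rw [h3]; exact h2

theorem hull_sum (hH : HulFacts C Γ) {ι : Type} {w : ι → V n} (hw : ∀ i, w i ∈ LamC C Γ)
    (S : Finset ι) (hS : S.Nonempty) : (∑ m ∈ S, w m) ∈ Hull C Γ := by
  classical
  induction hS using Finset.Nonempty.cons_induction with
  | singleton a => rw [Finset.sum_singleton]; exact hH.lamHull _ (hw a)
  | cons a s ha hs ih =>
    rw [Finset.sum_cons]
    exact hH.add _ (hH.lamHull _ (hw a)) _ ih

/-- a nonzero vector below a unit of a factor is in the limit cone -/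
theorem lam_of_unt (h : CC C Γ) (hBfa : BfaStmt) {K : ℕ} {L : Fin K → Submodule ℝ (V n)}
    {w : Fin K → V n} {β : Fin K → Fin K} (hb : Box C Γ L w β) {a : Fin K} (ha : ∃ m, β m ≠ a)
    {y : V n} (hyL : y ∈ L a) (hyC : y ∈ closure C) (hy0 : y ≠ 0) : y ∈ LamC C Γ := by
  classical
  have hp : PCone C := h.toPCone
  obtain ⟨hB1, hB2, hB3, hB4, hB5, hB6⟩ := hBfa n C Γ hp K L w β hb
  set u : V n := ∑ m ∈ Finset.univ.filter (fun m => β m = a), w m with hu
  have huU : Unt C (L a) u := hB3 a
  have huC : u ∉ C := fiber_not_mem hb ha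
  obtain ⟨M, hM, hMy⟩ := huU.2.2 y hyL
  have hu0 : u ≠ 0 := by
    intro h0
    rw [h0, smul_zero, zero_sub] at hMy
    exact hy0 (hp.salient y hyC hMy)
  obtain ⟨j, hj⟩ := hB6 a y hyL hy0
  have huH : u ∈ Hull C Γ := hull_sum h.hul (fun m => hb.pes.2 m) _
    ⟨j, Finset.mem_filter.mpr ⟨Finset.mem_univ _, hj⟩⟩
  have huL : u ∈ LamC C Γ := H37.cloF n C Γ h (fun _ => u) u (fun _ => huH) tendsto_const_nhds
    huC hu0
  exact H37.flmF n C Γ h _ (h.hul.lamSmul u huL M hM) y hyC hy0 hMy

theorem ccj (hBfa : BfaStmt) (hBcp : BcpStmt) (hExt : ExtStmt) (hFc2 : Fc2Stmt)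
    (hAas : AasStmt) (hFmx : FmxStmt) (hPsi : PsiStmt) (hSup : SupStmt) : CcjStmt := by
  classical
  intro n C Γ h K hK hmax L w β L' w' β' i a' hb hb' hF hF' hSt hSt' hdim hne hnear l hli hwl
    hrk hoth
  have hp : PCone C := h.toPCone
  have hwC : ∀ m, w m ∈ closure C := fun m => PES.cl hb.pes.1 m
  have hwC' : ∀ m, w' m ∈ closure C := fun m => PES.cl hb'.pes.1 m
  have hw0 : ∀ m, w m ≠ 0 := fun m => h.hul.lamNe _ (hb.pes.2 m)
  obtain ⟨hB1, hB2, hB3, hB4, hB5, hB6⟩ := hBfa n C Γ hp K L w β hb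
  obtain ⟨hB1', hB2', hB3', hB4', hB5', hB6'⟩ := hBfa n C Γ hp K L' w' β' hb'
  obtain ⟨hE1, hE2, hE3, hE4, hE5⟩ := hExt n C Γ hp K hK L w β hb hwC hF hSt
  obtain ⟨hE1', hE2', hE3', hE4', hE5'⟩ := hExt n C Γ hp K hK L' w' β' hb' hwC' hF' hSt'
  -- a third index
  obtain ⟨j, hji, hjl⟩ : ∃ j : Fin K, j ≠ i ∧ j ≠ l := by
    by_contra hcon
    push Not at hcon
    have h1 : (Finset.univ : Finset (Fin K)) ⊆ {i, l} := by
      intro m _
      by_cases hm : m = i
      · simp [hm]
      · simp [hcon m hm]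
    have h2 := Finset.card_le_card h1
    have h3 : ({i, l} : Finset (Fin K)).card ≤ 2 := Finset.card_le_two
    rw [Finset.card_univ, Fintype.card_fin] at h2
    omega
  obtain ⟨b₀, hb₀, hwj, -⟩ := hoth j hji hjl
  obtain ⟨f, hfU, hfφ, hfψ⟩ := ccj_limit hp hBfa hb hb' hji hjl hli hwj hb₀
    (fun M hM => (hnear j hji M hM).exists)
  -- the supporting functional of the facet opposite to `l`
  obtain ⟨φ, hφC, hφ0, hφm, hφl⟩ := H60.fun_ n C hp (Fin K) w l hb.pes.1
  obtain ⟨τ, hτ0, hτC, hτmax⟩ := exists_max_sub hp hfU.2.1 (hwC l) (hw0 l)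
  obtain ⟨y, hy⟩ : ∃ y : V n, y = f - τ • w l := ⟨_, rfl⟩
  have hyC : y ∈ closure C := by rw [hy]; exact hτC
  have hyL : y ∈ L' a' := by rw [hy]; exact (L' a').sub_mem hfU.1 ((L' a').smul_mem _ hwl)
  have hynU : ¬ Unt C (L' a') y := by
    intro hyU
    obtain ⟨-, -, -, hU4, -, -⟩ := unf n C hp (L' a') y hyU
    obtain ⟨ε, hε, hεU⟩ := hU4 (w l) hwl
    have h1 := hτmax (τ + ε) (by
      have h2 := hεU.2.1
      rw [hy] at h2
      have h3 : f - τ • w l - ε • w l = f - (τ + ε) • w l := by module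
      rwa [h3] at h2)
    linarith
  obtain ⟨χ, hχC, hχy, hχU⟩ := hSup n C Γ hp K L' w' β' hb' hwC' a' y hyL hyC hynU
  have hχf : 0 < χ f := hχU f hfU
  have hχf2 : χ f = τ * χ (w l) := by
    have h1 : χ y = χ f - τ * χ (w l) := by rw [hy, map_sub, map_smul, smul_eq_mul]
    rw [hχy] at h1; linarith
  have hχl : 0 < χ (w l) := by
    rcases (hχC _ (hwC l)).eq_or_lt with h0 | h0
    · rw [hχf2, ← h0, mul_zero] at hχf; exact absurd hχf (lt_irrefl _)
    · exact h0
  obtain ⟨ψ, hψC, hψa, hψb⟩ := hPsi n C Γ hp K L' w' β' hb' a' χ (fun x _ hx => hχC x hx)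
  have hτ2 : 2 ≤ τ := by
    have h1 := hfψ ψ hψC hψb
    rw [hψa _ hwl, hψa _ hfU.1, hχf2] at h1
    exact le_of_mul_le_mul_right h1 hχl
  have hφy : φ y = 0 := by
    apply le_antisymm _ (hφ0 y hyC)
    have h1 := hfφ φ hφ0 hφm
    have h2 : φ y = φ f - τ * φ (w l) := by rw [hy, map_sub, map_smul, smul_eq_mul]
    have h3 : 2 * φ (w l) ≤ τ * φ (w l) := mul_le_mul_of_nonneg_right hτ2 hφl.le
    linarith
  have hy0 : y ≠ 0 := by
    intro h0
    have hfe : f = τ • w l := by rw [hy] at h0; exact sub_eq_zero.mp h0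
    have hτp : 0 < τ := by linarith
    have hwU : Unt C (L' a') (w l) := by
      have h1 := unt_smul hp hfU (inv_pos.mpr hτp)
      rwa [hfe, smul_smul, inv_mul_cancel₀ hτp.ne', one_smul] at h1
    obtain ⟨-, -, -, -, -, hU6⟩ := unf n C hp (L' a') (w l) hwU
    have h1 := hU6 (hE2 l)
    have h2 : L' a' ≤ Submodule.span ℝ {w l} := by
      intro z hz
      obtain ⟨c, hc⟩ := h1 z hz
      rw [hc]; exact Submodule.smul_mem _ _ (Submodule.mem_span_singleton_self _)
    have h3 := Submodule.finrank_mono h2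
    have h4 := finrank_span_singleton (K := ℝ) (hw0 l)
    omega
  -- some vertex of the second box is not in the factor `a'`
  obtain ⟨j₂, hj₂⟩ : ∃ j₂, β' j₂ = b₀ := hB6' b₀ (w j) hwj (hw0 j)
  have hyLam : y ∈ LamC C Γ := lam_of_unt h hBfa hb' ⟨j₂, by rw [hj₂]; exact hb₀⟩ hyL hyC hy0
  -- the zoom with two speeds
  have hsumφ : φ (∑ m ∈ Finset.univ.erase l, w m) = 0 := by
    rw [map_sum]
    exact Finset.sum_eq_zero fun m hm => hφm m (Finset.ne_of_mem_erase hm)
  have hnotC : (∑ m ∈ Finset.univ.erase l, w m) + y ∉ C := by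
    intro hin
    have h1 := hφC _ hin
    rw [map_add, hsumφ, hφy, add_zero] at h1
    exact lt_irrefl _ h1
  have hnotC2 : (∑ m ∈ Finset.univ.erase l, w m) ∉ C := by
    intro hin
    have h1 := hφC _ hin
    rw [hsumφ] at h1
    exact lt_irrefl _ h1
  obtain ⟨M, hM, hMy⟩ := hFmx n C Γ h K hK hmax w l y hb.pes hyLam hnotC
  obtain ⟨x, hx⟩ : ∃ x : Fin K → V n, x = fun a =>
    ∑ m ∈ (Finset.univ.erase l).filter (fun m => β m = a), w m := ⟨_, rfl⟩
  have hxL : ∀ a, x a ∈ L a := by
    intro a; rw [hx]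
    refine (L a).sum_mem fun m hm => ?_
    have h1 := (Finset.mem_filter.mp hm).2
    rw [← h1]; exact hb.mem m
  have hxC : ∀ a, x a ∈ closure C := by
    intro a; rw [hx]
    exact hp.cl_sum fun m _ => hwC m
  have hxsum : ∑ a, x a = ∑ m ∈ Finset.univ.erase l, w m := by
    rw [hx]
    exact Finset.sum_fiberwise _ _ _
  obtain ⟨M', yy, hM', hyysum, hyy⟩ := hBcp n C Γ hp K L w β hb hF x hxL hxC
    (by rw [hxsum]; exact hnotC2) y hyC M (by rw [hxsum]; exact hMy)
  have hyW : y ∈ ⨆ a, L a := by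
    rw [← hyysum]
    exact Submodule.sum_mem _ fun a _ => (le_iSup L a) (hyy a).1
  have hyExt : Ext C y := hE1' a' y hyL hyC hynU
  obtain ⟨a, hya⟩ := hE3 y hyW hyC hyExt hy0
  have hyya : yy a = y := by
    have h1 := hB1 (fun b => yy b - if b = a then y else 0) (fun b => by
      refine (L b).sub_mem (hyy b).1 ?_
      by_cases hba : b = a
      · subst hba; rw [if_pos rfl]; exact hya
      · rw [if_neg hba]; exact (L b).zero_mem) (by
      rw [Finset.sum_sub_distrib, hyysum, Finset.sum_ite_eq' Finset.univ a,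
        if_pos (Finset.mem_univ _), sub_self]) a
    simp only [if_true] at h1
    exact sub_eq_zero.mp h1
  have hxy : M' • x a - y ∈ closure C := by have h1 := (hyy a).2.2; rwa [hyya] at h1
  have haβ : a = β i := by
    by_contra hai
    by_cases hex : ∃ j₁, j₁ ≠ l ∧ β j₁ = a
    · obtain ⟨j₁, hj₁l, hj₁a⟩ := hex
      have hj₁i : j₁ ≠ i := by rintro rfl; exact hai hj₁a.symm
      obtain ⟨b, hba', -, hLb⟩ := hoth j₁ hj₁i hj₁l
      have hLe : L (β j₁) = L' b := hLb (by rw [hj₁a]; exact hai)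
      rw [hj₁a] at hLe
      exact hy0 (hB5' b a' hba' y (by rw [← hLe]; exact hya) hyL)
    · push Not at hex
      have hx0 : x a = 0 := by
        rw [hx]
        refine Finset.sum_eq_zero fun m hm => ?_
        have h1 := Finset.mem_filter.mp hm
        exact absurd h1.2 (hex m (Finset.ne_of_mem_erase h1.1))
      rw [hx0, smul_zero, zero_sub] at hxy
      exact hy0 (hp.salient y hyC hxy)
  by_cases hβl : β l = β i
  · -- the fibre is `{i, l}`
    have hxi : x a = w i := by
      rw [hx]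
      show ∑ m ∈ (Finset.univ.erase l).filter (fun m => β m = a), w m = w i
      rw [Finset.sum_eq_single i]
      · intro m hm hmi
        exfalso
        obtain ⟨hm1, hm2⟩ := Finset.mem_filter.mp hm
        have hml : m ≠ l := Finset.ne_of_mem_erase hm1
        rcases hb.three m i l (by rw [hm2, haβ]) hβl.symm with h1 | h1 | h1
        · exact hmi h1
        · exact hli h1.symm
        · exact hml h1
      · intro hi
        exact absurd (Finset.mem_filter.mpr ⟨Finset.mem_erase.mpr ⟨hli.symm, Finset.mem_univ _⟩,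
          haβ.symm⟩) hi
    rw [hxi] at hxy
    obtain ⟨c, hc⟩ := hE2 i y hyC M' hxy
    have hc0 : c ≠ 0 := by rintro rfl; exact hy0 (by rw [hc, zero_smul])
    have hwi : w i ∈ ⨆ a, L' a := by
      have h1 : w i = c⁻¹ • y := by rw [hc, smul_smul, inv_mul_cancel₀ hc0, one_smul]
      rw [h1]
      exact Submodule.smul_mem _ _ ((le_iSup L' a') hyL)
    have hall : ∀ m, w m ∈ ⨆ a, L' a := by
      intro m
      by_cases hmi : m = i
      · rw [hmi]; exact hwi
      · by_cases hml : m = l
        · rw [hml]; exact (le_iSup L' a') hwl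
        · obtain ⟨b, -, hwb, -⟩ := hoth m hmi hml
          exact (le_iSup L' b) hwb
    obtain ⟨hA1, -, -⟩ := hAas n C Γ hp K hK L w β (⨆ a, L' a) hb hwC hF' hdim
    exact hne (hA1 hall)
  · -- a two-dimensional face contains the whole factor
    have hynl : a ≠ β l := by rw [haβ]; exact fun e => hβl e.symm
    have hind : Ind2 y (w l) := by
      intro α γ hαγ
      have h1 := hB1 (fun b => (if b = a then α • y else 0) + if b = β l then γ • w l else 0)
        (fun b => by
          refine (L b).add_mem ?_ ?_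
          · by_cases hba : b = a
            · subst hba; rw [if_pos rfl]; exact (L b).smul_mem _ hya
            · rw [if_neg hba]; exact (L b).zero_mem
          · by_cases hba : b = β l
            · rw [if_pos hba, hba]; exact (L (β l)).smul_mem _ (hb.mem l)
            · rw [if_neg hba]; exact (L b).zero_mem) (by
        rw [Finset.sum_add_distrib, Finset.sum_ite_eq' Finset.univ a,
          if_pos (Finset.mem_univ _), Finset.sum_ite_eq' Finset.univ (β l),
          if_pos (Finset.mem_univ _)]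
        exact hαγ)
      have h2 := h1 a
      have h3 := h1 (β l)
      simp only [if_true, if_neg hynl, add_zero] at h2
      simp only [if_true, if_neg (Ne.symm hynl), zero_add] at h3
      exact ⟨(smul_eq_zero.mp h2).resolve_right hy0, (smul_eq_zero.mp h3).resolve_right (hw0 l)⟩
    have hyU : Unt C (L' a') (y + w l) := hSt' a' y hyL (w l) hwl hyC (hwC l) hind
    have hyN : y + w l ∉ C := by
      intro hin
      have h1 := (hB2' (fun b => if b = a' then y + w l else 0) (fun b => by
        by_cases hba : b = a'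
        · subst hba; rw [if_pos rfl]; exact hyU.1
        · rw [if_neg hba]; exact (L' b).zero_mem)).mp (by
        rw [Finset.sum_ite_eq' Finset.univ a', if_pos (Finset.mem_univ _)]; exact hin) b₀
      rw [if_neg hb₀] at h1
      have h2 := hE5' j₂
      rw [hj₂] at h2
      exact h2 h1
    obtain ⟨-, -, -, -, hU5, -⟩ := unf n C hp (L' a') (y + w l) hyU
    have hsub : L' a' ≤ Submodule.span ℝ {y, w l} := by
      intro z hz
      obtain ⟨t, ht, htF⟩ := hU5 z hz
      obtain ⟨c, c', hc⟩ := hFc2 n C Γ hp K L w β hb hF a (β l) hynl y hya (w l) (hb.mem l) hyC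
        (hwC l) hyExt (hE2 l) hyN _ htF
      have h1 : t • z = (c - 1) • y + (c' - 1) • w l := by
        have h2 : t • z = (y + w l + t • z) - (y + w l) := by abel
        rw [h2, hc]; module
      have h2 : z = t⁻¹ • (t • z) := by rw [smul_smul, inv_mul_cancel₀ ht.ne', one_smul]
      rw [h2, h1]
      refine Submodule.smul_mem _ _ (Submodule.add_mem _ (Submodule.smul_mem _ _ ?_)
        (Submodule.smul_mem _ _ ?_))
      · exact Submodule.subset_span (by simp)
      · exact Submodule.subset_span (by simp)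
    have h3 := Submodule.finrank_mono hsub
    have h4 : Module.finrank ℝ ↥(Submodule.span ℝ ({y, w l} : Set (V n))) ≤ 2 := by
      have h5 := finrank_span_finset_le_card (R := ℝ) ({y, w l} : Finset (V n))
      have h6 : ((({y, w l} : Finset (V n)) : Set (V n))) = {y, w l} := by simp
      rw [Set.finrank, h6] at h5
      exact h5.trans Finset.card_le_two
    omega

end Pool.Agent.PFB.H76
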