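import Pool.Agent.Helper76_PFB.UNF

/-!
# PFB squad, row CCJ, first part: the limit vector and its supporting inequalities
-/

set_option autoImplicit false

open Matrix Filter Topology

namespace Pool.Agent.PFB.H76

open Pool.Agent.PFS

variable {n : ℕ} {C : Set (V n)} {Γ : Subgroup (GL (Fin n) ℝ)}

/-- the largest multiple of `w` below `f` -/
theorem exists_max_sub (h : PCone C) {f w : V n} (hf : f ∈ closure C) (hw : w ∈ closure C)
    (hw0 : w ≠ 0) : ∃ τ : ℝ, 0 ≤ τ ∧ f - τ • w ∈ closure C ∧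
      ∀ t : ℝ, f - t • w ∈ closure C → t ≤ τ := by
  obtain ⟨B, hB, hBn⟩ := h.normal
  set S : Set ℝ := {t : ℝ | 0 ≤ t ∧ f - t • w ∈ closure C} with hS
  have hSc : IsClosed S := by
    refine IsClosed.inter (isClosed_le continuous_const continuous_id) ?_
    exact isClosed_closure.preimage (by fun_prop : Continuous fun t : ℝ => f - t • w)
  have hwn : 0 < ‖w‖ := norm_pos_iff.mpr hw0
  have hbd : ∀ t ∈ S, t ≤ B * ‖f‖ / ‖w‖ := by
    rintro t ⟨ht0, ht⟩
    have h1 := hBn (t • w) f (h.cl_smul hw ht0) ht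
    rw [norm_smul, Real.norm_of_nonneg ht0] at h1
    rw [le_div_iff₀ hwn]; exact h1
  have hne : S.Nonempty := ⟨0, le_refl _, by rw [zero_smul, sub_zero]; exact hf⟩
  have hba : BddAbove S := ⟨_, fun t ht => hbd t ht⟩
  have hmem : sSup S ∈ S := hSc.csSup_mem hne hba
  refine ⟨sSup S, hmem.1, hmem.2, fun t ht => ?_⟩
  by_cases h0 : 0 ≤ t
  · exact le_csSup hba ⟨h0, ht⟩
  · exact (not_le.mp h0).le.trans hmem.1

theorem pt_sub_mem (h : PCone C) {K : ℕ} {w : Fin K → V n} (hw : ∀ i, w i ∈ closure C)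
    (u : Fin K → ℤ) (l : Fin K) : pt w u - (2 : ℝ) ^ (u l) • w l ∈ closure C := by
  classical
  have h1 : pt w u - (2 : ℝ) ^ (u l) • w l
      = ∑ m ∈ Finset.univ.erase l, (2 : ℝ) ^ (u m) • w m := by
    unfold pt
    rw [← Finset.add_sum_erase _ _ (Finset.mem_univ l)]
    abel
  rw [h1]
  exact h.cl_sum fun m _ => h.cl_smul (hw m) (by positivity)

/-- the exponents used in the rows CCI and CCJ -/
abbrev ex {K : ℕ} (i j : Fin K) (N : ℕ) : Fin K → ℤ :=
  fun l => if l = i then 0 else if l = j then (N : ℤ) else 1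

theorem ex_shift (h : PCone C) {K : ℕ} {w : Fin K → V n} (hw : ∀ i, w i ∈ closure C)
    {i j : Fin K} (hij : j ≠ i) (N N' : ℕ) :
    pt w (ex i j N') + (2 : ℝ) ^ N • w j - pt w (ex i j N) ∈ closure C := by
  classical
  have h1 : ∀ M : ℕ, pt w (ex i j M) = (2 : ℝ) ^ M • w j
      + ∑ m ∈ Finset.univ.erase j, (2 : ℝ) ^ (if m = i then (0 : ℤ) else 1) • w m := by
    intro M
    unfold pt
    rw [← Finset.add_sum_erase _ _ (Finset.mem_univ j)]
    congr 1
    · simp [ex, hij]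
    · refine Finset.sum_congr rfl fun m hm => ?_
      have hmj : m ≠ j := Finset.ne_of_mem_erase hm
      simp [ex, hmj]
  rw [h1 N, h1 N']
  have h2 : ∀ R : V n, (2 : ℝ) ^ N' • w j + R + (2 : ℝ) ^ N • w j - ((2 : ℝ) ^ N • w j + R)
      = (2 : ℝ) ^ N' • w j := fun R => by abel
  rw [h2]
  exact h.cl_smul (hw j) (by positivity)

theorem ccj_limit (h : PCone C) (hBfa : BfaStmt) {K : ℕ} {L L' : Fin K → Submodule ℝ (V n)}
    {w w' : Fin K → V n} {β β' : Fin K → Fin K} {i a' j l b₀ : Fin K}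
    (hb : Box C Γ L w β) (hb' : Box C Γ L' w' β') (hji : j ≠ i) (hjl : j ≠ l) (hli : l ≠ i)
    (hwj : w j ∈ L' b₀) (hb₀ : b₀ ≠ a')
    (hnear : ∀ M : ℝ, 1 < M → ∃ N : ℕ, NearS C M (⨆ a, L' a) (pt w (ex i j N))) :
    ∃ f : V n, Unt C (L' a') f ∧
      (∀ φ : (V n) →ₗ[ℝ] ℝ, (∀ x ∈ closure C, 0 ≤ φ x) → (∀ m, m ≠ l → φ (w m) = 0) →
        φ f ≤ 2 * φ (w l)) ∧
      (∀ ψ : (V n) →ₗ[ℝ] ℝ, (∀ x ∈ closure C, 0 ≤ ψ x) → (∀ b, b ≠ a' → ∀ x ∈ L' b, ψ x = 0) →
        2 * ψ (w l) ≤ ψ f) := by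
  classical
  have hwC : ∀ m, w m ∈ closure C := fun m => PES.cl hb.pes.1 m
  obtain ⟨hB1, hB2, hB3, hB4, hB5, hB6⟩ := hBfa n C Γ h K L' w' β' hb'
  obtain ⟨Ms, hMs⟩ : ∃ Ms : ℕ → ℝ, Ms = fun s : ℕ => 1 + 1 / ((s : ℝ) + 1) := ⟨_, rfl⟩
  have hMs1 : ∀ s, 1 < Ms s := by
    intro s; rw [hMs]
    have : (0 : ℝ) < 1 / ((s : ℝ) + 1) := by positivity
    simpa using this
  have hMs2 : ∀ s, Ms s ≤ 2 := by
    intro s; rw [hMs]
    have h1 : 1 / ((s : ℝ) + 1) ≤ 1 := by
      rw [div_le_one (by positivity)]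
      have : (0 : ℝ) ≤ (s : ℝ) := Nat.cast_nonneg s
      linarith
    show 1 + 1 / ((s : ℝ) + 1) ≤ 2
    linarith
  have hMslim : Tendsto Ms atTop (𝓝 1) := by
    rw [hMs]
    have h1 := (tendsto_const_nhds (x := (1 : ℝ)) (f := (atTop : Filter ℕ))).add
      (tendsto_one_div_add_atTop_nhds_zero_nat (𝕜 := ℝ))
    simpa using h1
  have hch : ∀ s : ℕ, ∃ (N : ℕ) (q : V n) (y : Fin K → V n),
      q - pt w (ex i j N) ∈ closure C ∧ Ms s • pt w (ex i j N) - q ∈ closure C ∧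
      (∀ a, y a ∈ L' a) ∧ ∑ a, y a = q := by
    intro s
    obtain ⟨N, q, hqL, hq1, hq2⟩ := hnear (Ms s) (hMs1 s)
    obtain ⟨y, hy1, hy2⟩ := hB4 q hqL
    exact ⟨N, q, y, hq1, hq2, hy1, hy2⟩
  choose N q y hq1 hq2 hyL hysum using hch
  have hpC : ∀ s, pt w (ex i j (N s)) ∈ C := fun s => PES.pt_mem hb.pes.1 _
  have hqC : ∀ s, q s ∈ C := fun s => h.mem_of_le (hpC s) (hq1 s)
  have hyU : ∀ s a, Unt C (L' a) (y s a) := fun s =>
    (hB2 (y s) (hyL s)).mp (by rw [hysum s]; exact hqC s)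
  have hkey : ∀ s s', (2 : ℝ) • y s' a' - y s a' ∈ closure C := by
    intro s s'
    have t1 : (2 : ℝ) • q s' + (2 * (2 : ℝ) ^ (N s)) • w j - q s ∈ closure C := by
      have e1 := h.cl_smul (ex_shift h hwC hji (N s) (N s')) (t := 2) (by norm_num)
      have e2 := h.cl_smul (hq1 s') (t := 2) (by norm_num)
      have e3 := h.cl_smul (subset_closure (hpC s)) (sub_nonneg.mpr (hMs2 s))
      have e4 := h.cl_add (h.cl_add e1 e2) (h.cl_add e3 (hq2 s))
      have e5 : (2 : ℝ) • (pt w (ex i j (N s')) + (2 : ℝ) ^ (N s) • w j - pt w (ex i j (N s)))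
          + (2 : ℝ) • (q s' - pt w (ex i j (N s')))
          + ((2 - Ms s) • pt w (ex i j (N s)) + (Ms s • pt w (ex i j (N s)) - q s))
          = (2 : ℝ) • q s' + (2 * (2 : ℝ) ^ (N s)) • w j - q s := by module
      rwa [e5] at e4
    have t2 := hb'.comp (fun b => (2 : ℝ) • y s' b - y s b +
      (if b = b₀ then (2 * (2 : ℝ) ^ (N s)) • w j else 0)) (fun b => by
        refine (L' b).add_mem ((L' b).sub_mem ((L' b).smul_mem _ (hyL s' b)) (hyL s b)) ?_
        by_cases hbb : b = b₀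
        · subst hbb; rw [if_pos rfl]; exact (L' b).smul_mem _ hwj
        · rw [if_neg hbb]; exact (L' b).zero_mem) (by
        rw [Finset.sum_add_distrib, Finset.sum_sub_distrib, ← Finset.smul_sum, hysum, hysum,
          Finset.sum_ite_eq' Finset.univ b₀, if_pos (Finset.mem_univ _)]
        have e5 : (2 : ℝ) • q s' - q s + (2 * (2 : ℝ) ^ (N s)) • w j
          = (2 : ℝ) • q s' + (2 * (2 : ℝ) ^ (N s)) • w j - q s := by abel
        rw [e5]; exact t1) a'
    have hne : ¬ (a' = b₀) := fun e => hb₀ e.symm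
    simpa only [if_neg hne, add_zero] using t2
  obtain ⟨B, hB, hBn⟩ := h.normal
  have hbdd : ∀ s, y s a' ∈ Metric.closedBall (0 : V n) (B * ‖(2 : ℝ) • y 0 a'‖) := by
    intro s
    rw [mem_closedBall_zero_iff]
    exact hBn _ _ (hyU s a').2.1 (hkey s 0)
  obtain ⟨f, -, σ, hσ, hσlim⟩ := tendsto_subseq_of_bounded Metric.isBounded_closedBall hbdd
  have hfL : f ∈ L' a' := by
    have hcl : IsClosed ((L' a' : Submodule ℝ (V n)) : Set (V n)) :=
      Submodule.closed_of_finiteDimensional _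
    exact hcl.mem_of_tendsto hσlim (Eventually.of_forall fun s => hyL (σ s) a')
  have hf2 : (2 : ℝ) • f - y 0 a' ∈ closure C := by
    refine isClosed_closure.mem_of_tendsto ((hσlim.const_smul (2 : ℝ)).sub_const (y 0 a'))
      (Eventually.of_forall fun s => ?_)
    exact hkey 0 (σ s)
  have hfU : Unt C (L' a') f := by
    refine unt_of_le h (unt_smul h (hyU 0 a') (t := 1 / 2) (by norm_num)) hfL ?_
    have e1 := h.cl_smul hf2 (t := 1 / 2) (by norm_num)
    have e2 : (1 / 2 : ℝ) • ((2 : ℝ) • f - y 0 a') = f - (1 / 2 : ℝ) • y 0 a' := by module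
    rwa [e2] at e1
  refine ⟨f, hfU, ?_, ?_⟩
  · intro φ hφ hφm
    have hcont : Continuous φ := LinearMap.continuous_of_finiteDimensional φ
    have l1 : Tendsto (fun s => φ (y (σ s) a')) atTop (𝓝 (φ f)) :=
      (hcont.tendsto f).comp hσlim
    have l2 : Tendsto (fun s => Ms (σ s) * (2 * φ (w l))) atTop (𝓝 (1 * (2 * φ (w l)))) :=
      (hMslim.comp hσ.tendsto_atTop).mul_const _
    rw [one_mul] at l2
    refine le_of_tendsto_of_tendsto' l1 l2 fun s => ?_
    have hp : φ (pt w (ex i j (N (σ s)))) = 2 * φ (w l) := by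
      unfold pt
      rw [map_sum, Finset.sum_eq_single l]
      · rw [map_smul, smul_eq_mul]
        have : ¬ (l = j) := fun e => hjl e.symm
        simp [ex, hli, this]
      · intro m _ hm
        rw [map_smul, hφm m hm, smul_zero]
      · intro hm; exact absurd (Finset.mem_univ _) hm
    have e1 : φ (y (σ s) a') ≤ φ (q (σ s)) := by
      have e2 : q (σ s) - y (σ s) a' ∈ closure C := by
        rw [← hysum (σ s), ← Finset.add_sum_erase _ _ (Finset.mem_univ a'), add_sub_cancel_left]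
        exact h.cl_sum fun b _ => (hyU (σ s) b).2.1
      have e3 := hφ _ e2
      rw [map_sub] at e3; linarith
    have e4 := hφ _ (hq2 (σ s))
    rw [map_sub, map_smul, smul_eq_mul, hp] at e4
    linarith
  · intro ψ hψ hψm
    have hcont : Continuous ψ := LinearMap.continuous_of_finiteDimensional ψ
    have l1 : Tendsto (fun s => ψ (y (σ s) a')) atTop (𝓝 (ψ f)) :=
      (hcont.tendsto f).comp hσlim
    refine ge_of_tendsto' l1 fun s => ?_
    have e1 : ψ (q (σ s)) = ψ (y (σ s) a') := by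
      rw [← hysum (σ s), map_sum, Finset.sum_eq_single a']
      · intro b _ hba; exact hψm b hba _ (hyL (σ s) b)
      · intro hm; exact absurd (Finset.mem_univ _) hm
    have e2 := hψ _ (hq1 (σ s))
    have e3 := hψ _ (pt_sub_mem h hwC (ex i j (N (σ s))) l)
    have e4 : ((2 : ℝ) ^ (ex i j (N (σ s)) l)) = 2 := by
      have : ¬ (l = j) := fun e => hjl e.symm
      simp [ex, hli, this]
    rw [map_sub] at e2
    rw [map_sub, map_smul, smul_eq_mul, e4] at e3
    linarith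

end Pool.Agent.PFB.H76
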