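import Pool.Agent.PFB.StmtsG

/-!
# PFB, row G_BIP (biproximal elements), by helper76
-/

set_option autoImplicit false

open Matrix Filter Topology

namespace Pool.Agent.PFB.H76

open Pool.Agent.PFS Pool.Agent.PFB

theorem tend_apply {d : ℕ} (T : ℕ → (V d →ₗ[ℝ] V d)) (A : V d → V d)
    (h : ∀ x, Tendsto (fun m => T m x) atTop (𝓝 (A x))) (y : ℕ → V d) (y0 : V d)
    (hy : Tendsto y atTop (𝓝 y0)) (T0 : V d →ₗ[ℝ] V d) (hT0 : ∀ x, T0 x = A x) :
    Tendsto (fun m => T m (y m)) atTop (𝓝 (A y0)) := by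
  have h1 : ∀ m, T m (y m) = ∑ i, y m i • T m (fun j => if i = j then 1 else 0) := by
    intro m
    exact LinearMap.pi_apply_eq_sum_univ (T m) (y m)
  have h2 : A y0 = ∑ i, y0 i • A (fun j => if i = j then 1 else 0) := by
    rw [← hT0 y0, LinearMap.pi_apply_eq_sum_univ T0 y0]
    refine Finset.sum_congr rfl fun i _ => ?_
    rw [hT0]
  rw [h2]
  have h3 : (fun m => T m (y m)) =
      fun m => ∑ i, y m i • T m (fun j => if i = j then 1 else 0) := funext h1
  rw [h3]
  refine tendsto_finsetSum _ fun i _ => ?_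
  refine Tendsto.smul ?_ (h _)
  exact (tendsto_pi_nhds.mp hy) i

theorem cl_smul {d : ℕ} {F : Set (V d)} (hF : PCone F) {x : V d} (hx : x ∈ closure F) {t : ℝ}
    (ht : 0 < t) : t • x ∈ closure F := by
  refine map_mem_closure (f := fun y : V d => t • y) (continuous_const_smul t) hx ?_
  intro y hy
  exact hF.smul y hy t ht

theorem cl_lin {d : ℕ} {F : Set (V d)} (A : V d →ₗ[ℝ] V d) (hA : ∀ x ∈ F, A x ∈ F) {x : V d}
    (hx : x ∈ closure F) : A x ∈ closure F := by
  refine map_mem_closure (f := fun y : V d => A y) ?_ hx ?_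
  · exact LinearMap.continuous_of_finiteDimensional A
  · intro y hy
    exact hA y hy

theorem tend_scal {d : ℕ} {f w : V d} (hf : f ≠ 0) (c : ℕ → ℝ)
    (h : Tendsto (fun m => c m • f) atTop (𝓝 w)) :
    ∃ c0 : ℝ, Tendsto c atTop (𝓝 c0) ∧ c0 • f = w := by
  obtain ⟨i, hi⟩ : ∃ i, f i ≠ 0 := by
    by_contra hcon
    push Not at hcon
    exact hf (funext hcon)
  have h1 : Tendsto (fun m => c m * f i) atTop (𝓝 (w i)) := (tendsto_pi_nhds.mp h) i
  have h2 : Tendsto (fun m => c m * f i / f i) atTop (𝓝 (w i / f i)) := h1.div_const _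
  have h3 : (fun m => c m * f i / f i) = c := by
    funext m
    field_simp
  rw [h3] at h2
  refine ⟨w i / f i, h2, ?_⟩
  have h4 : Tendsto (fun m => c m • f) atTop (𝓝 ((w i / f i) • f)) := h2.smul_const f
  exact tendsto_nhds_unique h4 h

theorem bip (ctr : CtrStmt) (rko : RkoStmt) : BipStmt := by
  intro d F hF hS H r s f a b hH hr hs hf ha haF hb hbF hli hrf hsf
  have ha0 : a ≠ 0 := by
    have := hli.ne_zero 0
    simpa using this
  have hb0 : b ≠ 0 := by
    have := hli.ne_zero 1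
    simpa using this
  have hf0 : f ≠ 0 := by
    intro h0
    rw [h0] at hf
    exact hF.zero hf
  have hHs : ∀ m x, (H m).symm x ∈ F ↔ x ∈ F := by
    intro m x
    have := hH m ((H m).symm x)
    rw [LinearEquiv.apply_symm_apply] at this
    exact this.symm
  obtain ⟨φ1, ψ, hφ1, hψ0, hψF, hψ⟩ := rko d F hF hS H r f b hH hr hf hb hbF hb0 hrf
  obtain ⟨φ2, χ, hφ2, hχ0, hχF, hχ⟩ := rko d F hF hS (fun m => (H (φ1 m)).symm)
    (fun m => s (φ1 m)) f a (fun m x => hHs (φ1 m) x) (fun m => hs _) hf ha haF ha0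
    (hsf.comp hφ1.tendsto_atTop)
  obtain ⟨θ, hθ⟩ : ∃ θ : ℕ → ℕ, ∀ m, θ m = φ1 (φ2 m) := ⟨_, fun _ => rfl⟩
  have hθt : Tendsto θ atTop atTop := by
    have : θ = fun m => φ1 (φ2 m) := funext hθ
    rw [this]
    exact hφ1.tendsto_atTop.comp hφ2.tendsto_atTop
  have hψ' : ∀ x, Tendsto (fun m => r (θ m) • H (θ m) x) atTop (𝓝 (ψ x • b)) := by
    intro x
    have h1 := (hψ x).comp hφ2.tendsto_atTop
    have h2 : (fun m => r (θ m) • H (θ m) x) =
        (fun m => r (φ1 m) • H (φ1 m) x) ∘ φ2 := by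
      funext m
      simp only [Function.comp, hθ]
    rw [h2]
    exact h1
  have hχ' : ∀ x, Tendsto (fun m => s (θ m) • (H (θ m)).symm x) atTop (𝓝 (χ x • a)) := by
    intro x
    have h1 := hχ x
    have h2 : (fun m => s (θ m) • (H (θ m)).symm x) =
        fun m => s (φ1 (φ2 m)) • (H (φ1 (φ2 m))).symm x := by
      funext m
      rw [hθ]
    rw [h2]
    exact h1
  have hrf' : Tendsto (fun m => r (θ m) • H (θ m) f) atTop (𝓝 b) := hrf.comp hθt
  have hsf' : Tendsto (fun m => s (θ m) • (H (θ m)).symm f) atTop (𝓝 a) := hsf.comp hθt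
  obtain ⟨L, hL⟩ : ∃ L : ℕ → (V d →ₗ[ℝ] V d), ∀ m x, L m x = r (θ m) • H (θ m) x :=
    ⟨fun m => r (θ m) • (H (θ m) : V d →ₗ[ℝ] V d), fun m x => rfl⟩
  obtain ⟨L', hL'⟩ : ∃ L' : ℕ → (V d →ₗ[ℝ] V d), ∀ m x, L' m x = s (θ m) • (H (θ m)).symm x :=
    ⟨fun m => s (θ m) • ((H (θ m)).symm : V d →ₗ[ℝ] V d), fun m x => rfl⟩
  have hLt : ∀ x, Tendsto (fun m => L m x) atTop (𝓝 (ψ x • b)) := by
    intro x
    have : (fun m => L m x) = fun m => r (θ m) • H (θ m) x := funext fun m => hL m x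
    rw [this]
    exact hψ' x
  have hLt' : ∀ x, Tendsto (fun m => L' m x) atTop (𝓝 (χ x • a)) := by
    intro x
    have : (fun m => L' m x) = fun m => s (θ m) • (H (θ m)).symm x := funext fun m => hL' m x
    rw [this]
    exact hχ' x
  have hLcl : ∀ m, ∀ x ∈ closure F, L m x ∈ closure F := by
    intro m x hx
    rw [hL]
    refine cl_smul hF ?_ (hr _)
    exact cl_lin (H (θ m) : V d →ₗ[ℝ] V d) (fun y hy => (hH (θ m) y).mpr hy) hx
  have hLcl' : ∀ m, ∀ x ∈ closure F, L' m x ∈ closure F := by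
    intro m x hx
    rw [hL']
    refine cl_smul hF ?_ (hs _)
    exact cl_lin ((H (θ m)).symm : V d →ₗ[ℝ] V d) (fun y hy => (hHs (θ m) y).mpr hy) hx
  -- products
  have hP1 : Tendsto (fun m => (r (θ m) * s (θ m)) • f) atTop (𝓝 (ψ a • b)) := by
    have h1 := tend_apply L (fun x => ψ x • b) hLt (fun m => s (θ m) • (H (θ m)).symm f) a hsf'
      (ψ.smulRight b) (fun x => rfl)
    have h2 : (fun m => L m (s (θ m) • (H (θ m)).symm f)) =
        fun m => (r (θ m) * s (θ m)) • f := by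
      funext m
      rw [hL, map_smul, LinearEquiv.apply_symm_apply, smul_smul]
    rw [h2] at h1
    exact h1
  have hP2 : Tendsto (fun m => (r (θ m) * s (θ m)) • f) atTop (𝓝 (χ b • a)) := by
    have h1 := tend_apply L' (fun x => χ x • a) hLt' (fun m => r (θ m) • H (θ m) f) b hrf'
      (χ.smulRight a) (fun x => rfl)
    have h2 : (fun m => L' m (r (θ m) • H (θ m) f)) =
        fun m => (r (θ m) * s (θ m)) • f := by
      funext m
      rw [hL', map_smul, LinearEquiv.symm_apply_apply, smul_smul, mul_comm]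
    rw [h2] at h1
    exact h1
  obtain ⟨c, hc, hcf⟩ := tend_scal hf0 (fun m => r (θ m) * s (θ m)) hP1
  have hcf2 : c • f = χ b • a := by
    have h1 : Tendsto (fun m => (r (θ m) * s (θ m)) • f) atTop (𝓝 (c • f)) := hc.smul_const f
    exact tendsto_nhds_unique h1 hP2
  have hc0 : 0 ≤ c := ge_of_tendsto' hc fun m => (mul_pos (hr _) (hs _)).le
  have hcz : c = 0 := by
    by_contra hne
    have hcp : 0 < c := lt_of_le_of_ne hc0 (Ne.symm hne)
    have hψa : 0 ≤ ψ a := hψ0 a ha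
    have hψne : ψ a ≠ 0 := by
      intro h0
      rw [h0, zero_smul] at hcf
      exact (smul_ne_zero hne hf0) hcf
    have hψp : 0 < ψ a := lt_of_le_of_ne hψa (Ne.symm hψne)
    have hbe : b = (c / ψ a) • f := by
      have h1 : (ψ a)⁻¹ • (c • f) = (ψ a)⁻¹ • (ψ a • b) := by rw [hcf]
      rw [smul_smul, smul_smul, inv_mul_cancel₀ hψne, one_smul] at h1
      rw [← h1, div_eq_inv_mul]
    apply hbF
    rw [hbe]
    exact hF.smul f hf _ (div_pos hcp hψp)
  have hψa : ψ a = 0 := by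
    rw [hcz, zero_smul] at hcf
    rcases smul_eq_zero.mp hcf.symm with h | h
    · exact h
    · exact absurd h hb0
  have hχb : χ b = 0 := by
    rw [hcz, zero_smul] at hcf2
    rcases smul_eq_zero.mp hcf2.symm with h | h
    · exact h
    · exact absurd h ha0
  have hab : a + b ∈ F := hS a ha b hb hli
  have hψb : 0 < ψ b := by
    have h1 := hψF _ hab
    rw [map_add, hψa, zero_add] at h1
    exact h1
  have hχa : 0 < χ a := by
    have h1 := hχF _ hab
    rw [map_add, hχb, add_zero] at h1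
    exact h1
  obtain ⟨x, κ, hx, hxt, hκ⟩ := ctr d F hF L ψ b hLcl hb hψb hψ0 hLt
  obtain ⟨x', κ', hx', hxt', hκ'⟩ := ctr d F hF L' χ a hLcl' ha hχa hχ0 hLt'
  have hlin : ∀ᶠ m in atTop, LinearIndependent ℝ ![x' m, x m] := by
    have h1 : Tendsto (fun m => (![x' m, x m] : Fin 2 → V d)) atTop (𝓝 ![a, b]) := by
      rw [tendsto_pi_nhds]
      intro i
      fin_cases i
      · exact hxt'
      · exact hxt
    have h2 : IsOpen {g : Fin 2 → V d | LinearIndependent ℝ g} := isOpen_setOfPred_linearIndependent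
    exact h1.eventually (h2.mem_nhds hli)
  have hκp : ∀ᶠ m in atTop, 0 < κ m := hκ.eventually (lt_mem_nhds hψb)
  have hκp' : ∀ᶠ m in atTop, 0 < κ' m := hκ'.eventually (lt_mem_nhds hχa)
  have hlt : ∀ᶠ m in atTop, r (θ m) * s (θ m) < κ m * κ' m := by
    have h1 : Tendsto (fun m => κ m * κ' m - r (θ m) * s (θ m)) atTop
        (𝓝 (ψ b * χ a - c)) := (hκ.mul hκ').sub hc
    have h2 : 0 < ψ b * χ a - c := by
      rw [hcz, sub_zero]
      exact mul_pos hψb hχa
    filter_upwards [h1.eventually (lt_mem_nhds h2)] with m hm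
    linarith
  obtain ⟨m, hm1, hm2, hm3, hm4, hm5, hm6⟩ :=
    (hx.and (hx'.and (hlin.and (hκp.and (hκp'.and hlt))))).exists
  have hr0 := hr (θ m)
  have hs0 := hs (θ m)
  refine ⟨θ m, x' m, x m, s (θ m) / κ' m, κ m / r (θ m), hm2.1, hm1.1, hm3, div_pos hs0 hm5, ?_,
    ?_, ?_⟩
  · rw [div_lt_div_iff₀ hm5 hr0]
    calc s (θ m) * r (θ m) = r (θ m) * s (θ m) := mul_comm _ _
      _ < κ m * κ' m := hm6
  · have h1 := hm2.2
    rw [hL'] at h1
    have h2 : s (θ m) • x' m = κ' m • H (θ m) (x' m) := by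
      have h3 := congrArg (H (θ m)) h1
      rw [map_smul, map_smul, LinearEquiv.apply_symm_apply] at h3
      exact h3
    have h4 : (κ' m)⁻¹ • (s (θ m) • x' m) = (κ' m)⁻¹ • (κ' m • H (θ m) (x' m)) := by rw [h2]
    rw [smul_smul, smul_smul, inv_mul_cancel₀ hm5.ne', one_smul] at h4
    rw [← h4, div_eq_inv_mul]
  · have h1 := hm1.2
    rw [hL] at h1
    have h4 : (r (θ m))⁻¹ • (r (θ m) • H (θ m) (x m)) = (r (θ m))⁻¹ • (κ m • x m) := by rw [h1]
    rw [smul_smul, smul_smul, inv_mul_cancel₀ hr0.ne', one_smul] at h4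
    rw [h4, div_eq_inv_mul]

end Pool.Agent.PFB.H76
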